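import Pool.Agent.Y132.SD.Main

/-!
# Simultaneous survival of `k` elements
-/

set_option autoImplicit false

open scoped commutatorElement
open Pool.Agent.Results.MP_2b96c2_al.SeparatingNotDiscriminating

namespace Pool.Agent.Y132.SD

variable {J : Type} [Fintype J] [DecidableEq J] (a : J → ℕ → ℤ)

/-- Polynomials over an infinite domain: there is a natural number which is not a root of any of
finitely many nonzero polynomials. -/
lemma exists_nat_eval_ne_zero {R α : Type} [CommRing R] [IsDomain R] [CharZero R]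
    (S : Finset α) (P : α → Polynomial R) (hP : ∀ s ∈ S, P s ≠ 0) :
    ∃ q : ℕ, ∀ s ∈ S, (P s).eval (q : R) ≠ 0 := by
  by_contra hcon
  push Not at hcon
  have h1 : (∏ s ∈ S, P s) = 0 := by
    apply Polynomial.eq_zero_of_infinite_isRoot
    refine Set.Infinite.mono (s := Set.range (fun q : ℕ => (q : R))) ?_
      (Set.infinite_range_of_injective Nat.cast_injective)
    rintro _ ⟨q, rfl⟩
    obtain ⟨s, hs, h2⟩ := hcon q
    change Polynomial.IsRoot _ _
    rw [Polynomial.IsRoot.def, Polynomial.eval_prod]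
    exact Finset.prod_eq_zero hs h2
  exact Finset.prod_ne_zero_iff.2 hP h1

/-- Suppose infinitely many numbers are values of all `a j`, `j ∈ A`. Finitely many nontrivial
elements whose marks are in `A` survive simultaneously. -/
lemma survive (A : Finset J)
    (hinf : ∀ M : ℕ, ∃ m : ℤ, (M : ℤ) ≤ |m| ∧ ∀ j ∈ A, ∃ N, a j N = m)
    (S : Finset (TT a)) (hS : ∀ t ∈ S, (t : AffJ J).lin ≠ 0 ∨ (t : AffJ J).tr.1 ≠ 0 ∨
      ∃ j ∈ A, (t : AffJ J).tr.2 j ≠ 0) :
    ∃ f : TT a →* FreeMetabelian2, Function.Surjective f ∧ ∀ t ∈ S, f t ≠ 1 := by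
  classical
  have : CharZero (GR A2) := algebraRat.charZero _
  -- bounds
  have hb : ∀ t : TT a, ∃ M : ℕ, ∀ m : ℤ, (M : ℤ) ≤ |m| →
      ((t : AffJ J).lin ≠ 0 → sg m (t : AffJ J).lin ≠ 0) ∧
      ((t : AffJ J).tr.1 ≠ 0 → sig m (t : AffJ J).tr.1 ≠ 0) ∧
      ∀ j, (t : AffJ J).tr.2 j ≠ 0 → sig m ((t : AffJ J).tr.2 j) ≠ 0 := by
    intro t
    have h1 : ∃ M : ℕ, ∀ m : ℤ, (M : ℤ) ≤ |m| →
        ((t : AffJ J).lin ≠ 0 → sg m (t : AffJ J).lin ≠ 0) := by
      by_cases h : (t : AffJ J).lin = 0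
      · exact ⟨0, fun m _ h' => absurd h h'⟩
      · obtain ⟨M, hM⟩ := sg_ne_zero h
        exact ⟨M, fun m hm _ => hM m hm⟩
    have h2 : ∀ v : GR B3, ∃ M : ℕ, ∀ m : ℤ, (M : ℤ) ≤ |m| → (v ≠ 0 → sig m v ≠ 0) := by
      intro v
      by_cases h : v = 0
      · exact ⟨0, fun m _ h' => absurd h h'⟩
      · obtain ⟨M, hM⟩ := sig_ne_zero h
        exact ⟨M, fun m hm _ => hM m hm⟩
    obtain ⟨M1, hM1⟩ := h1
    obtain ⟨M2, hM2⟩ := h2 (t : AffJ J).tr.1
    choose M3 hM3 using fun j => h2 ((t : AffJ J).tr.2 j)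
    refine ⟨M1 + M2 + ∑ j, M3 j, fun m hm => ⟨hM1 m ?_, hM2 m ?_, fun j => hM3 j m ?_⟩⟩
    · push_cast at hm
      have : (0 : ℤ) ≤ ∑ j, (M3 j : ℤ) := Finset.sum_nonneg fun j _ => Int.natCast_nonneg _
      have : (0 : ℤ) ≤ M2 := Int.natCast_nonneg _
      linarith
    · push_cast at hm
      have : (0 : ℤ) ≤ ∑ j, (M3 j : ℤ) := Finset.sum_nonneg fun j _ => Int.natCast_nonneg _
      have : (0 : ℤ) ≤ M1 := Int.natCast_nonneg _
      linarith
    · push_cast at hm
      have h3 : (M3 j : ℤ) ≤ ∑ j, (M3 j : ℤ) :=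
        Finset.single_le_sum (f := fun j => (M3 j : ℤ)) (fun j _ => Int.natCast_nonneg _)
          (Finset.mem_univ j)
      have : (0 : ℤ) ≤ M1 := Int.natCast_nonneg _
      have : (0 : ℤ) ≤ M2 := Int.natCast_nonneg _
      linarith
  choose Mt hMt using hb
  obtain ⟨m, hm, hN⟩ := hinf (∑ t ∈ S, Mt t)
  have hm' : ∀ t ∈ S, (Mt t : ℤ) ≤ |m| := by
    intro t ht
    refine le_trans ?_ hm
    exact_mod_cast Finset.single_le_sum (f := Mt) (fun _ _ => Nat.zero_le _) ht
  have hN' : ∀ j, ∃ N, j ∈ A → a j N = m := fun j => by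
    by_cases h : j ∈ A
    · obtain ⟨N, hN⟩ := hN j h
      exact ⟨N, fun _ => hN⟩
    · exact ⟨0, fun h' => absurd h' h⟩
  choose N hNm using hN'
  -- an injective numbering of the indices
  obtain ⟨e⟩ := Fintype.truncEquivFin J
  set r : J → ℕ := fun j => (e j : ℕ) + 1 with hr
  have hrinj : Function.Injective r := fun i j h => e.injective (Fin.ext (Nat.succ_injective h))
  -- the polynomials
  set d : J → GR A2 := fun j => if j ∈ A then kap * ((2 : ℚ) ^ (N j + 1) • 1) else 0 with hd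
  have hd0 : ∀ j ∈ A, d j ≠ 0 := by
    intro j hj h
    rw [hd] at h
    simp only [if_pos hj] at h
    rcases mul_eq_zero.mp h with h7 | h7
    · exact kap_ne_zero h7
    · rw [smul_eq_zero] at h7
      rcases h7 with h8 | h8
      · exact (pow_ne_zero _ (two_ne_zero (α := ℚ))) h8
      · exact one_ne_zero h8
  set P : TT a → Polynomial (GR A2) := fun t =>
    Polynomial.C (sig m (t : AffJ J).tr.1) +
      ∑ j, Polynomial.monomial (r j) (d j * sig m ((t : AffJ J).tr.2 j)) with hP
  have hcoef0 : ∀ t, (P t).coeff 0 = sig m (t : AffJ J).tr.1 := by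
    intro t
    rw [hP]
    simp only [Polynomial.coeff_add, Polynomial.finsetSum_coeff, Polynomial.coeff_C_zero]
    rw [Finset.sum_eq_zero, add_zero]
    intro j _
    rw [Polynomial.coeff_monomial, if_neg]
    rw [hr]
    exact Nat.succ_ne_zero _
  have hcoef : ∀ t j, (P t).coeff (r j) = d j * sig m ((t : AffJ J).tr.2 j) := by
    intro t j
    rw [hP]
    simp only [Polynomial.coeff_add, Polynomial.finsetSum_coeff]
    rw [Polynomial.coeff_C, if_neg (Nat.succ_ne_zero _), zero_add, Finset.sum_eq_single j]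
    · rw [Polynomial.coeff_monomial, if_pos rfl]
    · intro i _ hi
      rw [Polynomial.coeff_monomial, if_neg]
      exact fun h => hi (hrinj h)
    · intro h
      exact absurd (Finset.mem_univ j) h
  obtain ⟨q, hq⟩ := exists_nat_eval_ne_zero (S.filter fun t : TT a => (t : AffJ J).lin = 0) P (by
    intro t ht h0
    rw [Finset.mem_filter] at ht
    rcases hS t ht.1 with h1 | h1 | ⟨j, hj, h1⟩
    · exact h1 ht.2
    · refine (hMt t m (hm' t ht.1)).2.1 h1 ?_
      rw [← hcoef0 t, h0, Polynomial.coeff_zero]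
    · have h2 := (hMt t m (hm' t ht.1)).2.2 j h1
      have h3 := hcoef t j
      rw [h0, Polynomial.coeff_zero] at h3
      rcases mul_eq_zero.mp h3.symm with h4 | h4
      · exact hd0 j hj h4
      · exact h2 h4)
  -- the homomorphism
  set c : J → GR A2 := fun j => (q : GR A2) ^ r j * d j with hc
  have hcast : ∀ n : ℕ, (n : GR A2) = (n : ℚ) • 1 := fun n => by
    rw [Nat.cast_smul_eq_nsmul, nsmul_eq_mul, mul_one]
  have hcm : ∀ t ∈ TT a, ff m c t ∈ Hmod := fun t ht => ff_mem a (fun j n => by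
    by_cases hj : j ∈ A
    · have h0 : c j = kap * (((q ^ r j : ℕ) : ℚ) * (2 : ℚ) ^ (N j + 1)) • 1 := by
        rw [hc]
        simp only [hd, if_pos hj]
        rw [← Nat.cast_pow, hcast, mul_smul, smul_mul_assoc, one_mul, mul_smul_comm,
          mul_smul_comm, mul_smul_comm]
      rw [h0, ← hNm j hj]
      exact dv_image (a j) (N j) n (q ^ r j)
    · have h0 : c j = 0 := by
        rw [hc]
        simp only [hd, if_neg hj, mul_zero]
      rw [h0, zero_mul]
      exact trans_zero) ht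
  refine ⟨toFM a m c hcm, toFM_surjective a m c hcm, fun t ht => toFM_ne_one a hcm ?_⟩
  intro h3
  by_cases hl : (t : AffJ J).lin = 0
  · have h4 := congrArg Aff.tr h3
    rw [ff_tr, Aff.one_tr] at h4
    have h5 : (P t).eval (q : GR A2) =
        sig m (t : AffJ J).tr.1 + ∑ j, c j * sig m ((t : AffJ J).tr.2 j) := by
      have h6 : ∀ j, (Polynomial.monomial (r j)
          (d j * sig m ((t : AffJ J).tr.2 j))).eval (q : GR A2) =
            c j * sig m ((t : AffJ J).tr.2 j) := by
        intro j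
        rw [Polynomial.eval_monomial, mul_comm, ← mul_assoc]
      have h7 := Polynomial.eval_add (p := Polynomial.C (sig m (t : AffJ J).tr.1))
        (q := ∑ j, Polynomial.monomial (r j) (d j * sig m ((t : AffJ J).tr.2 j)))
        (x := (q : GR A2))
      rw [Polynomial.eval_C, Polynomial.eval_finsetSum, Finset.sum_congr rfl fun j _ => h6 j] at h7
      exact h7
    exact hq t (Finset.mem_filter.2 ⟨ht, hl⟩) (h5.trans h4)
  · exact (hMt t m (hm' t ht)).1 hl (congrArg Aff.lin h3)

end Pool.Agent.Y132.SD
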