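import Pool.Agent.Results.MP_2b96c2_al.SeparatingNotDiscriminating

/-!
# Groups with `k`-discriminating but not `(k + 1)`-discriminating surjections
-/

set_option autoImplicit false

open scoped commutatorElement
open Pool.Agent.Results.MP_2b96c2_al.SeparatingNotDiscriminating

namespace Pool.Agent.Y132.SD

/-- Translation module of the counterexample. -/
abbrev VJ (J : Type) : Type := GR B3 × (J → GR B3)

/-- Ambient group of the counterexample. -/
abbrev AffJ (J : Type) : Type := Aff B3 (VJ J)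

variable {J : Type} [Fintype J] [DecidableEq J]

/-- The translation part of the homomorphisms. -/
noncomputable def psi (m : ℤ) (c : J → GR A2) : VJ J →+ GR A2 where
  toFun v := sig m v.1 + ∑ j, c j * sig m (v.2 j)
  map_zero' := by simp
  map_add' v w := by
    simp only [Prod.fst_add, Prod.snd_add, map_add, Pi.add_apply, mul_add, Finset.sum_add_distrib]
    ring

/-- The homomorphisms of the ambient groups. -/
noncomputable def ff (m : ℤ) (c : J → GR A2) : AffJ J →* AffA :=
  Aff.map (sg m) (psi m c) (by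
    intro b v
    simp only [psi, AddMonoidHom.coe_mk, ZeroHom.coe_mk, Prod.smul_fst, Prod.smul_snd,
      Pi.smul_apply, smul_eq_mul, map_mul, sig_mon, mul_add, Finset.mul_sum]
    congr 1
    exact Finset.sum_congr rfl fun j _ => by ring)

omit [DecidableEq J] in
lemma ff_lin (m : ℤ) (c : J → GR A2) (t : AffJ J) : (ff m c t).lin = sg m t.lin := rfl

omit [DecidableEq J] in
lemma ff_tr (m : ℤ) (c : J → GR A2) (t : AffJ J) : (ff m c t).tr =
  sig m t.tr.1 + ∑ j, c j * sig m (t.tr.2 j) := rfl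

/-- Products of the elements `z x ^ (- a i) - 1`, `i < n`. -/
noncomputable def pie (a : ℕ → ℤ) (n : ℕ) : GR B3 :=
  ∏ l ∈ Finset.range n, (mon (-(a l), 0, 1) - 1)

lemma pie_succ (a : ℕ → ℤ) (n : ℕ) : pie a (n + 1) = pie a n * (mon (-(a n), 0, 1) - 1) := by
  unfold pie
  rw [Finset.prod_range_succ]

/-- The generators of the divisibility modules. -/
noncomputable def dv (a : ℕ → ℤ) (n : ℕ) : GR B3 := ((1 : ℚ) / 2 ^ n) • pie a n

lemma dv_zero (a : ℕ → ℤ) : dv a 0 = 1 := by
  simp [dv, pie]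

lemma dv_rel (a : ℕ → ℤ) (n : ℕ) :
    mon (-(a n), 0, 1) * dv a n = dv a n + (dv a (n + 1) + dv a (n + 1)) := by
  unfold dv
  rw [pie_succ]
  have h1 : ((1 : ℚ) / 2 ^ (n + 1)) • (pie a n * (mon (-(a n), 0, 1) - 1)) +
      ((1 : ℚ) / 2 ^ (n + 1)) • (pie a n * (mon (-(a n), 0, 1) - 1)) =
      ((1 : ℚ) / 2 ^ n) • (pie a n * (mon (-(a n), 0, 1) - 1)) := by
    rw [← add_smul]
    congr 1
    rw [pow_succ]
    field_simp
    norm_num
  rw [h1, mul_smul_comm, ← smul_add]
  congr 1
  ring

noncomputable def gx (J : Type) : AffJ J := ⟨(1, 0, 0), 0⟩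
noncomputable def gy (J : Type) : AffJ J := ⟨(0, 1, 0), (1, 0)⟩
noncomputable def gz (J : Type) : AffJ J := ⟨(0, 0, 1), 0⟩
noncomputable def ge (a : J → ℕ → ℤ) (j : J) (n : ℕ) : AffJ J :=
  ⟨0, (0, Pi.single j (dv (a j) n))⟩

/-- Generating set of the counterexample. -/
def gensT (a : J → ℕ → ℤ) : Set (AffJ J) :=
  {gx J, gy J, gz J} ∪ Set.range fun p : J × ℕ => ge a p.1 p.2

/-- The counterexample. -/
noncomputable def TT (a : J → ℕ → ℤ) : Subgroup (AffJ J) := Subgroup.closure (gensT a)

variable (a : J → ℕ → ℤ)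

omit [Fintype J] in
lemma gx_mem : gx J ∈ TT a := Subgroup.subset_closure (by simp [gensT])
omit [Fintype J] in
lemma gy_mem : gy J ∈ TT a := Subgroup.subset_closure (by simp [gensT])
omit [Fintype J] in
lemma gz_mem : gz J ∈ TT a := Subgroup.subset_closure (by simp [gensT])
omit [Fintype J] in
lemma ge_mem (j : J) (n : ℕ) : ge a j n ∈ TT a :=
  Subgroup.subset_closure (Or.inr ⟨(j, n), rfl⟩)

omit [DecidableEq J] in
lemma ff_gx (m : ℤ) (c : J → GR A2) : ff m c (gx J) = genP := by
  ext1
  · simp [ff_lin, gx, genP, sg]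
  · simp [ff_tr, gx, genP]

omit [DecidableEq J] in
lemma ff_gy (m : ℤ) (c : J → GR A2) : ff m c (gy J) = genQ := by
  ext1
  · simp [ff_lin, gy, genQ, sg]
  · simp [ff_tr, gy, genQ]

omit [DecidableEq J] in
lemma ff_gz (m : ℤ) (c : J → GR A2) : ff m c (gz J) = genP ^ m := by
  rw [genP_zpow]
  ext1
  · simp [ff_lin, gz, sg]
  · simp [ff_tr, gz]

lemma ff_mem {m : ℤ} {c : J → GR A2}
    (h1 : ∀ j n, (⟨0, c j * sig m (dv (a j) n)⟩ : AffA) ∈ Hmod) {t : AffJ J} (ht : t ∈ TT a) :
    ff m c t ∈ Hmod := by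
  unfold TT at ht
  induction ht using Subgroup.closure_induction with
  | mem x hx =>
    rcases hx with (rfl | rfl | rfl) | ⟨⟨j, n⟩, rfl⟩
    · rw [ff_gx]; exact genP_mem
    · rw [ff_gy]; exact genQ_mem
    · rw [ff_gz]; exact Hmod.zpow_mem genP_mem m
    · have : ff m c (ge a j n) = ⟨0, c j * sig m (dv (a j) n)⟩ := by
        ext1
        · simp [ff_lin, ge]
        · rw [ff_tr]
          simp only [ge, map_zero, zero_add]
          rw [Finset.sum_eq_single j]
          · rw [Pi.single_eq_same]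
          · intro i _ hi
            rw [Pi.single_eq_of_ne hi, map_zero, mul_zero]
          · intro h
            exact absurd (Finset.mem_univ j) h
      rw [this]; exact h1 j n
  | one => rw [map_one]; exact Hmod.one_mem
  | mul x y _ _ hx hy => rw [map_mul]; exact Hmod.mul_mem hx hy
  | inv x _ hx => rw [map_inv]; exact Hmod.inv_mem hx

lemma trans_nsmul {r : GR A2} (hr : (⟨0, kap * r⟩ : AffA) ∈ Hmod) (q : ℕ) :
    (⟨0, kap * ((q : ℚ) • r)⟩ : AffA) ∈ Hmod := by
  induction q with
  | zero =>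
    rw [Nat.cast_zero, zero_smul, mul_zero]
    exact trans_zero
  | succ q ih =>
    have h1 := trans_add ih hr
    rw [Nat.cast_succ, add_smul, one_smul]
    exact h1

/-- The integrality of the images of the generators of the divisibility modules. -/
lemma dv_image (b : ℕ → ℤ) (N n : ℕ) (q : ℕ) :
    (⟨0, (kap * ((q : ℚ) * (2 : ℚ) ^ (N + 1)) • 1) * sig (b N) (dv b n)⟩ : AffA) ∈ Hmod := by
  have hsig : ∀ l : ℕ, sig (b N) (mon (-(b l), 0, 1) - 1) = mon (b N - b l, 0) - 1 := by
    intro l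
    rw [map_sub, map_one, sig_mon]
    congr 2
    simp only [sg, AddMonoidHom.coe_mk, ZeroHom.coe_mk]
    ext
    · simp only; ring
    · rfl
  have hpie : ∀ k : ℕ, sig (b N) (pie b k) =
      ∏ l ∈ Finset.range k, (mon (b N - b l, 0) - 1) := by
    intro k
    unfold pie
    rw [map_prod]
    exact Finset.prod_congr rfl (fun l _ => hsig l)
  have hint : ∀ (k : ℕ) (r : GR A2), (⟨0, kap * r⟩ : AffA) ∈ Hmod →
      (⟨0, kap * ((∏ l ∈ Finset.range k, (mon (b N - b l, 0) - 1)) * r)⟩ : AffA) ∈ Hmod := by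
    intro k
    induction k with
    | zero => intro r hr; simpa using hr
    | succ k ih =>
      intro r hr
      rw [Finset.prod_range_succ, mul_assoc]
      apply ih
      rw [sub_mul, one_mul, sub_eq_add_neg]
      exact trans_add (trans_mon _ hr) (trans_neg hr)
  by_cases hn : n ≤ N
  · have h2 : (⟨0, kap * (((q * 2 ^ (N + 1 - n) : ℕ) : ℚ) • 1)⟩ : AffA) ∈ Hmod :=
      trans_nsmul trans_one _
    have h3 := hint n _ h2
    convert h3 using 2
    unfold dv
    rw [sig_smul, hpie]
    simp only [mul_smul_comm, smul_mul_assoc, mul_one, smul_smul]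
    congr 1
    have : (2 : ℚ) ^ (N + 1) = 2 ^ (N + 1 - n) * 2 ^ n := by
      rw [← pow_add]; congr 1; omega
    rw [this]
    push_cast
    field_simp
  · have h0 : sig (b N) (dv b n) = 0 := by
      unfold dv
      rw [sig_smul, hpie]
      have : ∏ l ∈ Finset.range n, (mon (b N - b l, (0 : ℤ)) - 1) = 0 := by
        apply Finset.prod_eq_zero (i := N) (Finset.mem_range.mpr (by omega))
        rw [sub_self]
        exact sub_self _
      rw [this, smul_zero]
    rw [h0, mul_zero]
    exact trans_zero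

/-! ### Surjections of the counterexample onto the free metabelian group -/

/-- The homomorphism of the counterexample to the free metabelian group induced by `ff`. -/
noncomputable def toFM (m : ℤ) (c : J → GR A2) (h : ∀ t ∈ TT a, ff m c t ∈ Hmod) :
    TT a →* FreeMetabelian2 :=
  thetaEquiv.symm.toMonoidHom.comp
    (((ff m c).comp (TT a).subtype).codRestrict Hmod (fun t => h t t.2))

lemma toFM_surjective (m : ℤ) (c : J → GR A2) (h : ∀ t ∈ TT a, ff m c t ∈ Hmod) :
    Function.Surjective (toFM a m c h) := by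
  have h1 : Hmod ≤ ((ff m c).comp (TT a).subtype).range := by
    unfold Hmod
    rw [Subgroup.closure_le]
    intro x hx
    rcases hx with rfl | rfl
    · exact ⟨⟨gx J, gx_mem a⟩, ff_gx m c⟩
    · exact ⟨⟨gy J, gy_mem a⟩, ff_gy m c⟩
  intro y
  obtain ⟨t, ht⟩ := h1 (thetaEquiv y).2
  refine ⟨t, ?_⟩
  have h2 : (((ff m c).comp (TT a).subtype).codRestrict Hmod (fun t => h t t.2)) t =
      thetaEquiv y := Subtype.ext ht
  change thetaEquiv.symm ((((ff m c).comp (TT a).subtype).codRestrict Hmod _) t) = y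
  rw [h2, MulEquiv.symm_apply_apply]

lemma toFM_ne_one {m : ℤ} {c : J → GR A2} (h : ∀ t ∈ TT a, ff m c t ∈ Hmod) {t : TT a}
    (ht : ff m c (t : AffJ J) ≠ 1) : toFM a m c h t ≠ 1 := by
  intro h1
  apply ht
  have h2 : thetaEquiv.symm
      ((((ff m c).comp (TT a).subtype).codRestrict Hmod (fun t => h t t.2)) t) = 1 := h1
  rw [MulEquiv.map_eq_one_iff] at h2
  exact congrArg Subtype.val h2

/-- For large parameter the maps of exponents do not kill a given element. -/
lemma sg_ne_zero {b : B3} (hb : b ≠ 0) : ∃ M : ℕ, ∀ m : ℤ, (M : ℤ) ≤ |m| → sg m b ≠ 0 := by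
  obtain ⟨M, hM⟩ := sig_ne_zero (mon_sub_one_ne_zero hb)
  refine ⟨M, fun m hm h => hM m hm ?_⟩
  rw [map_sub, map_one, sig_mon, h, mon_zero, sub_self]

end Pool.Agent.Y132.SD
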