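import Pool.Agent.Y132.SD.Disc

/-!
# No surjection keeps all test elements
-/

set_option autoImplicit false

open scoped commutatorElement
open Pool.Agent.Results.MP_2b96c2_al.SeparatingNotDiscriminating

namespace Pool.Agent.Y132.SD

variable {J : Type} [Fintype J] [DecidableEq J] (a : J → ℕ → ℤ)

omit [Fintype J] in
/-- If a surjection keeps the test elements with the indices in `A` then these sequences have a
common value. -/
lemma common {A : Finset J} (hA : A.Nonempty) (F : TT a →* FreeMetabelian2)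
    (hF : Function.Surjective F)
    (hne : ∀ j ∈ A, F ⟨ge a j 0, ge_mem a j 0⟩ ≠ 1) : ∃ l : ℤ, ∀ j ∈ A, ∃ n, a j n = l := by
  set F' : TT a →* AffA := theta.comp F with hF'
  have hrange : ∀ y ∈ Hmod, ∃ t, F' t = y := by
    intro y hy
    rw [← theta_range] at hy
    obtain ⟨w, rfl⟩ := hy
    obtain ⟨t, rfl⟩ := hF w
    exact ⟨t, rfl⟩
  have hmem : ∀ t, F' t ∈ Hmod := by
    intro t
    rw [← theta_range]
    exact ⟨F t, rfl⟩
  -- translations go to translations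
  have hlin0 : ∀ t : TT a, (t : AffJ J).lin = 0 → (F' t).lin = 0 := by
    intro t ht
    by_contra ha
    obtain ⟨s, hs⟩ := hrange ⟨0, kap * 1⟩ trans_one
    have hc : t * (t * s * t⁻¹ * s⁻¹) = (t * s * t⁻¹ * s⁻¹) * t := by
      apply Subtype.ext
      apply Aff.comm_of_lin_zero ht
      simp [ht]
    have h1 := congrArg F' hc
    simp only [map_mul, map_inv, hs] at h1
    rw [Aff.comm_iff] at h1
    have h2 : (F' t * ⟨0, kap * 1⟩ * (F' t)⁻¹ * (⟨0, kap * 1⟩ : AffA)⁻¹).lin = 0 := by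
      simp
    have h3 : (F' t * ⟨0, kap * 1⟩ * (F' t)⁻¹ * (⟨0, kap * 1⟩ : AffA)⁻¹).tr =
        (mon (F' t).lin - 1) * kap := by
      rw [conj_trans _ _ rfl]
      simp only [Aff.mul_tr, Aff.inv_tr, mon_zero, smul_eq_mul, mul_one, neg_zero]
      ring
    rw [h2, h3, mon_zero, sub_self, zero_smul, smul_eq_mul] at h1
    have h4 := mon_sub_one_ne_zero ha
    rcases mul_eq_zero.mp h1 with h5 | h5
    · exact h4 h5
    · rcases mul_eq_zero.mp h5 with h6 | h6
      · exact h4 h6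
      · exact kap_ne_zero h6
  set α : A2 := (F' ⟨gx J, gx_mem a⟩).lin with hα
  set β : A2 := (F' ⟨gy J, gy_mem a⟩).lin with hβ
  set γ : A2 := (F' ⟨gz J, gz_mem a⟩).lin with hγ
  have hxpow : ∀ m : ℤ, (gx J : AffJ J) ^ m = ⟨(m, 0, 0), 0⟩ := by
    intro m
    have h1 : gx J = zeroHom (Multiplicative.ofAdd ((1 : ℤ), (0 : ℤ), (0 : ℤ))) := rfl
    rw [h1, ← map_zpow]
    have h2 : (Multiplicative.ofAdd ((1 : ℤ), (0 : ℤ), (0 : ℤ))) ^ m =
        Multiplicative.ofAdd ((m : ℤ), (0 : ℤ), (0 : ℤ)) := by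
      rw [← ofAdd_zsmul]
      simp
    rw [h2]
    rfl
  have hrel : ∀ (j : J) (n : ℕ), (⟨gz J, gz_mem a⟩ * (⟨gx J, gx_mem a⟩ : TT a) ^ (-(a j n))) *
      ⟨ge a j n, ge_mem a j n⟩ *
      (⟨gz J, gz_mem a⟩ * (⟨gx J, gx_mem a⟩ : TT a) ^ (-(a j n)))⁻¹ =
        (⟨ge a j n, ge_mem a j n⟩ : TT a) * (⟨ge a j (n + 1), ge_mem a j (n + 1)⟩ *
          ⟨ge a j (n + 1), ge_mem a j (n + 1)⟩) := by
    intro j n
    apply Subtype.ext
    change (gz J * gx J ^ (-(a j n))) * ge a j n * (gz J * gx J ^ (-(a j n)))⁻¹ =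
      ge a j n * (ge a j (n + 1) * ge a j (n + 1))
    rw [conj_trans _ _ rfl, hxpow]
    ext1
    · simp [ge]
    · have h1 := dv_rel (a j) n
      simp only [ge, gz, Aff.mul_lin, Aff.mul_tr, mon_zero, one_smul, Prod.smul_mk,
        Prod.mk_add_mk, add_zero, zero_add, smul_zero]
      rw [← Pi.single_add, ← Pi.single_add, ← h1, ← Pi.single_smul, smul_eq_mul]
  have hkill : ∀ j, ∃ n, j ∈ A → γ + (-(a j n)) • α = 0 := by
    intro j
    by_cases hj : j ∉ A
    · exact ⟨0, fun h => absurd h hj⟩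
    rw [not_not] at hj
    by_contra hcon
    simp only [hj, forall_const] at hcon
    push Not at hcon
    have h0 := vanish (fun n => (F' ⟨ge a j n, ge_mem a j n⟩).tr)
      (fun n => γ + (-(a j n)) • α) hcon
      (fun n x => integral_of_mem (hmem _) x) (by
        intro n
        have h1 := congrArg F' (hrel j n)
        rw [map_mul, map_mul, map_inv, conj_trans _ _ (hlin0 _ rfl)] at h1
        have h2 := congrArg Aff.tr h1
        rw [map_mul, map_mul, map_mul, map_zpow] at h2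
        simp only [Aff.mul_tr, Aff.mul_lin, hlin0 ⟨ge a j n, ge_mem a j n⟩ rfl,
          hlin0 ⟨ge a j (n + 1), ge_mem a j (n + 1)⟩ rfl, mon_zero, smul_eq_mul] at h2
        have h3 : (F' ⟨gx J, gx_mem a⟩ ^ (-(a j n))).lin = (-(a j n)) • α := by
          have : Aff.linHom (F' ⟨gx J, gx_mem a⟩ ^ (-(a j n))) =
              (Multiplicative.ofAdd α) ^ (-(a j n)) := by
            rw [map_zpow]; rfl
          have h4 := congrArg Multiplicative.toAdd this
          rw [toAdd_zpow] at h4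
          exact h4
        rw [h3] at h2
        simp only [one_mul] at h2
        exact h2)
    apply hne j hj
    apply theta_injective
    rw [map_one]
    change F' ⟨ge a j 0, ge_mem a j 0⟩ = 1
    ext1
    · exact hlin0 _ rfl
    · exact h0
  choose N hN using hkill
  have hα0 : α ≠ 0 := by
    intro hα0
    obtain ⟨j, hj⟩ := hA
    have hγ0 : γ = 0 := by
      have h1 := hN j hj
      rwa [hα0, smul_zero, add_zero] at h1
    have hcyc : ∀ t (ht : t ∈ TT a), ∃ k : ℤ, (F' ⟨t, ht⟩).lin = k • β := by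
      intro t ht
      unfold TT at ht
      induction ht using Subgroup.closure_induction with
      | mem x hx =>
        rcases hx with (rfl | rfl | rfl) | ⟨⟨j, n⟩, rfl⟩
        · exact ⟨0, by rw [zero_smul]; exact hα0⟩
        · exact ⟨1, by rw [one_smul]⟩
        · exact ⟨0, by rw [zero_smul]; exact hγ0⟩
        · exact ⟨0, by rw [zero_smul]; exact hlin0 _ rfl⟩
      | one =>
        refine ⟨0, ?_⟩
        rw [zero_smul]
        exact hlin0 _ rfl
      | mul x y hx' hy' hx hy =>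
        obtain ⟨k, hk⟩ := hx
        obtain ⟨l, hl⟩ := hy
        refine ⟨k + l, ?_⟩
        have : (⟨x * y, mul_mem hx' hy'⟩ : TT a) = ⟨x, hx'⟩ * ⟨y, hy'⟩ := rfl
        rw [this, map_mul, Aff.mul_lin, hk, hl, add_smul]
      | inv x hx' hx =>
        obtain ⟨k, hk⟩ := hx
        refine ⟨-k, ?_⟩
        have : (⟨x⁻¹, inv_mem hx'⟩ : TT a) = ⟨x, hx'⟩⁻¹ := rfl
        rw [this, map_inv, Aff.inv_lin, hk, neg_smul]
    obtain ⟨⟨t, ht⟩, h1⟩ := hrange _ genP_mem
    obtain ⟨⟨t', ht'⟩, h2⟩ := hrange _ genQ_mem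
    obtain ⟨k, hk⟩ := hcyc t ht
    obtain ⟨l, hl⟩ := hcyc t' ht'
    rw [h1] at hk
    rw [h2] at hl
    have hk1 := congrArg Prod.fst hk
    have hk2 := congrArg Prod.snd hk
    have hl1 := congrArg Prod.fst hl
    have hl2 := congrArg Prod.snd hl
    simp only [genP, genQ, Prod.smul_fst, Prod.smul_snd, smul_eq_mul] at hk1 hk2 hl1 hl2
    have hk0 : k ≠ 0 := by
      intro h; rw [h] at hk1; simp at hk1
    have hb2 : β.2 = 0 := by
      rcases mul_eq_zero.mp hk2.symm with h | h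
      · exact absurd h hk0
      · exact h
    rw [hb2, mul_zero] at hl2
    exact one_ne_zero hl2
  obtain ⟨j₀, hj₀⟩ := hA
  refine ⟨a j₀ (N j₀), fun j hj => ⟨N j, ?_⟩⟩
  have h1 : (a j₀ (N j₀) - a j (N j)) • α = 0 := by
    have h2 := sub_eq_zero.mpr ((hN j hj).trans (hN j₀ hj₀).symm)
    rw [← h2]
    simp only [neg_smul, sub_smul]
    abel
  rcases smul_eq_zero.mp h1 with h2 | h2
  · exact (sub_eq_zero.mp h2).symm
  · exact absurd h2 hα0

omit [Fintype J] in
lemma ge_ne_one (j : J) : (⟨ge a j 0, ge_mem a j 0⟩ : TT a) ≠ 1 := by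
  intro h
  have h1 : ge a j 0 = 1 := congrArg Subtype.val h
  have h2 := congrArg (fun w : AffJ J => w.tr.2 j) h1
  simp only [ge, dv_zero, Pi.single_eq_same] at h2
  exact one_ne_zero h2

omit [Fintype J] in
lemma ge_inj {i j : J} (h : (⟨ge a i 0, ge_mem a i 0⟩ : TT a) = ⟨ge a j 0, ge_mem a j 0⟩) :
    i = j := by
  by_contra hij
  have h1 : ge a i 0 = ge a j 0 := congrArg Subtype.val h
  have h2 := congrArg (fun w : AffJ J => w.tr.2 i) h1
  simp only [ge, dv_zero, Pi.single_eq_same, Pi.single_eq_of_ne hij] at h2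
  exact one_ne_zero h2

omit [Fintype J] [DecidableEq J] in
lemma VJ_torsion_free (b : B3) (v : VJ J) (hb : b ≠ 0) (h : (mon b - 1) • v = 0) : v = 0 := by
  have h1 := mon_sub_one_ne_zero hb
  have h2 := congrArg Prod.fst h
  simp only [Prod.smul_fst, smul_eq_mul, Prod.fst_zero, mul_eq_zero] at h2
  refine Prod.ext (h2.resolve_left h1) (funext fun j => ?_)
  have h3 := congrArg (fun w : VJ J => w.2 j) h
  simp only [Prod.smul_snd, Pi.smul_apply, smul_eq_mul, Prod.snd_zero, Pi.zero_apply,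
    mul_eq_zero] at h3
  exact h3.resolve_left h1

omit [DecidableEq J] in
lemma countable_aff : Countable (AffJ J) := by
  have h1 : Countable (GR B3) := by
    refine Function.Injective.countable (β := B3 →₀ ℚ) (f := fun v => v.coeff) ?_
    intro v w h
    ext x
    exact DFunLike.congr_fun h x
  have h2 : Function.Injective fun t : AffJ J => (t.lin, t.tr) := by
    intro s t h
    rw [Prod.mk.injEq] at h
    exact Aff.ext h.1 h.2
  exact h2.countable

omit [DecidableEq J] in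
/-- Each face of a finite simplicial complex is a value `B l` for infinitely many `l`. -/
lemma exists_faces (Δ : Finset J → Prop) (hΔ : Δ ∅) :
    ∃ B : ℕ → Finset J, (∀ l, Δ (B l)) ∧ ∀ A, Δ A → ∀ M : ℕ, ∃ l, M ≤ l ∧ B l = A := by
  classical
  set Φ := {A : Finset J // Δ A} with hΦ
  have : Nonempty Φ := ⟨⟨∅, hΔ⟩⟩
  set r := Fintype.card Φ with hr
  have hr0 : 0 < r := Fintype.card_pos
  set e : Φ ≃ Fin r := Fintype.equivFin Φ
  refine ⟨fun l => (e.symm ⟨l % r, Nat.mod_lt _ hr0⟩).1, fun l => (e.symm _).2, fun A hA M => ?_⟩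
  refine ⟨r * M + e ⟨A, hA⟩, ?_, ?_⟩
  · have : 1 * M ≤ r * M := Nat.mul_le_mul_right M hr0
    omega
  · have h1 : (⟨(r * M + e ⟨A, hA⟩) % r, Nat.mod_lt _ hr0⟩ : Fin r) = e ⟨A, hA⟩ := by
      apply Fin.ext
      change (r * M + (e ⟨A, hA⟩ : ℕ)) % r = _
      rw [Nat.mul_add_mod, Nat.mod_eq_of_lt (e ⟨A, hA⟩).2]
    change (e.symm (⟨(r * M + e ⟨A, hA⟩) % r, Nat.mod_lt _ hr0⟩ : Fin r)).1 = A
    rw [h1, Equiv.symm_apply_apply]

/-- The sequence of the numbers `l` such that `j` is in the set `B l`. -/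
noncomputable def seq (B : ℕ → Finset J) (j : J) (n : ℕ) : ℤ :=
  (Nat.nth (fun l => j ∈ B l) n : ℕ)

omit [Fintype J] [DecidableEq J] in
lemma seq_range {B : ℕ → Finset J} (j : J) (hB : ∀ M : ℕ, ∃ l, M ≤ l ∧ j ∈ B l) (l : ℤ) :
    (∃ n, seq B j n = l) ↔ ∃ m : ℕ, (m : ℤ) = l ∧ j ∈ B m := by
  have hinf : {l | j ∈ B l}.Infinite := by
    rw [Set.infinite_iff_exists_gt]
    intro M
    obtain ⟨l, hl, h⟩ := hB (M + 1)
    exact ⟨l, h, by omega⟩
  constructor
  · rintro ⟨n, rfl⟩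
    exact ⟨_, rfl, Nat.nth_mem_of_infinite hinf n⟩
  · rintro ⟨m, rfl, hm⟩
    have h1 := Nat.range_nth_of_infinite hinf
    have h2 : m ∈ Set.range (Nat.nth fun l => j ∈ B l) := by
      rw [h1]
      exact hm
    obtain ⟨n, hn⟩ := h2
    exact ⟨n, by rw [seq, hn]⟩

/-- The group. -/
abbrev Grp (B : ℕ → Finset J) : Type := TT (J := J) (seq B)

variable {B : ℕ → Finset J} {Δ : Finset J → Prop}

/-- Finitely many nontrivial elements survive simultaneously if the set of their marks is a face. -/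
lemma survive_marks (hBΔ : ∀ A, Δ A → ∀ M : ℕ, ∃ l, M ≤ l ∧ B l = A) (hv : ∀ j, Δ {j})
    (S : Finset (Grp B)) (A : Finset J) (hA : Δ A)
    (hS : ∀ t ∈ S, (t : AffJ J).lin ≠ 0 ∨ (t : AffJ J).tr.1 ≠ 0 ∨
      ∃ j ∈ A, (t : AffJ J).tr.2 j ≠ 0) :
    ∃ f : Grp B →* FreeMetabelian2, Function.Surjective f ∧ ∀ t ∈ S, f t ≠ 1 := by
  have hBj : ∀ j : J, ∀ M : ℕ, ∃ l, M ≤ l ∧ j ∈ B l := by
    intro j M
    obtain ⟨l, h1, h2⟩ := hBΔ {j} (hv j) M
    exact ⟨l, h1, by rw [h2]; exact Finset.mem_singleton_self j⟩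
  refine survive (seq B) A (fun M => ?_) S hS
  obtain ⟨l, h1, h2⟩ := hBΔ A hA M
  refine ⟨(l : ℤ), ?_, fun j hj => ?_⟩
  · rw [abs_of_nonneg (Int.natCast_nonneg _)]
    exact_mod_cast h1
  · rw [seq_range j (hBj j)]
    exact ⟨l, rfl, by rw [h2]; exact hj⟩

/-- The test elements with the indices in `A` survive simultaneously exactly if `A` is a face. -/
lemma pattern (hB : ∀ l, Δ (B l)) (hBΔ : ∀ A, Δ A → ∀ M : ℕ, ∃ l, M ≤ l ∧ B l = A)
    (hv : ∀ j, Δ {j}) (h0 : Δ ∅) (hd : ∀ A A', A ⊆ A' → Δ A' → Δ A) (A : Finset J) :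
    (∃ f : Grp B →* FreeMetabelian2, Function.Surjective f ∧
      ∀ j ∈ A, f ⟨ge (seq B) j 0, ge_mem _ j 0⟩ ≠ 1) ↔ Δ A := by
  classical
  have hBj : ∀ j : J, ∀ M : ℕ, ∃ l, M ≤ l ∧ j ∈ B l := by
    intro j M
    obtain ⟨l, h1, h2⟩ := hBΔ {j} (hv j) M
    exact ⟨l, h1, by rw [h2]; exact Finset.mem_singleton_self j⟩
  constructor
  · rintro ⟨F, hF, hne⟩
    rcases A.eq_empty_or_nonempty with rfl | hA
    · exact h0
    · obtain ⟨l, hl⟩ := common (seq B) hA F hF hne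
      obtain ⟨j, hj⟩ := hA
      obtain ⟨m, rfl, -⟩ := (seq_range j (hBj j) l).1 (hl j hj)
      refine hd A (B m) (fun i hi => ?_) (hB m)
      obtain ⟨m', h1, h2⟩ := (seq_range i (hBj i) (m : ℤ)).1 (hl i hi)
      have h3 : m' = m := by exact_mod_cast h1
      rwa [h3] at h2
  · intro hA
    obtain ⟨f, hf, h1⟩ := survive_marks hBΔ hv
      (A.image fun j => (⟨ge (seq B) j 0, ge_mem _ j 0⟩ : Grp B)) A hA (by
        intro t ht
        obtain ⟨j, hj, rfl⟩ := Finset.mem_image.1 ht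
        refine Or.inr (Or.inr ⟨j, hj, ?_⟩)
        simp only [ge, dv_zero, Pi.single_eq_same]
        exact one_ne_zero)
    exact ⟨f, hf, fun j hj => h1 _ (Finset.mem_image_of_mem _ hj)⟩

/-- Any `k` nontrivial elements survive simultaneously if all sets of `k` indices are faces. -/
lemma survive_all (hBΔ : ∀ A, Δ A → ∀ M : ℕ, ∃ l, M ≤ l ∧ B l = A) (hv : ∀ j, Δ {j}) {k : ℕ}
    (hk : ∀ A : Finset J, A.card ≤ k → Δ A) (S : Finset (Grp B)) (hS : ∀ t ∈ S, t ≠ 1)
    (hcard : S.card ≤ k) :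
    ∃ f : Grp B →* FreeMetabelian2, Function.Surjective f ∧ ∀ t ∈ S, f t ≠ 1 := by
  classical
  -- the marks
  have hmark : ∀ t : Grp B, ∃ A : Finset J, A.card ≤ 1 ∧ (t ≠ 1 → (t : AffJ J).lin ≠ 0 ∨
      (t : AffJ J).tr.1 ≠ 0 ∨ ∃ j ∈ A, (t : AffJ J).tr.2 j ≠ 0) := by
    intro t
    by_cases h : ∃ j, (t : AffJ J).tr.2 j ≠ 0
    · obtain ⟨j, hj⟩ := h
      exact ⟨{j}, by simp, fun _ => Or.inr (Or.inr ⟨j, Finset.mem_singleton_self j, hj⟩)⟩
    · refine ⟨∅, by simp, fun ht => ?_⟩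
      push Not at h
      by_contra hcon
      push Not at hcon
      apply ht
      apply Subtype.ext
      ext1
      · exact hcon.1
      · exact Prod.ext hcon.2.1 (funext h)
  choose mk hmk1 hmk2 using hmark
  refine survive_marks hBΔ hv S (S.biUnion mk) (hk _ ?_) fun t ht => ?_
  · refine Finset.card_biUnion_le.trans (le_trans (Finset.sum_le_card_nsmul _ _ 1 fun t _ =>
      hmk1 t) ?_)
    rw [smul_eq_mul, mul_one]
    exact hcard
  · rcases hmk2 t (hS t ht) with h | h | ⟨j, hj, h⟩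
    · exact Or.inl h
    · exact Or.inr (Or.inl h)
    · exact Or.inr (Or.inr ⟨j, Finset.mem_biUnion.2 ⟨t, ht, hj⟩, h⟩)

end Pool.Agent.Y132.SD
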